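import Pool.Agent.Helper79K9.EA.Expl
import Pool.Agent.H613R2.EA.CHAIN
import Pool.Agent.H47R2.EA.BASIC
import Pool.Agent.H47R2.EA.INF

/-!
# The greatest influence of the boundary condition at distance `n`: elementary properties
-/

set_option autoImplicit false

open MeasureTheory
open scoped ENNReal

namespace Pool.Agent.Helper79K9.FS

open Pool.H47EA
open Pool.Agent.Helper79K9.EA (Sp)

variable {d : ℕ}

/-- The influences on the spin at `x` of a change of the boundary condition at distance at least `n`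
from `x`, in all finite volumes. -/
def inflSet (β : ℝ) (J : Coupling d) (n : ℕ) (x : Site d) : Set ℝ :=
  {t | ∃ (L : Finset (Site d)) (ω ω' : Site d → Bool), x ∈ L ∧
    (∀ y, y ∉ L → dist1 x y < n → ω y = ω' y) ∧ t = |gE β J L ω (ind x) - gE β J L ω' (ind x)|}

/-- The greatest influence on the spin at `x` of a change of the boundary condition at distance at
least `n` from `x`. -/
noncomputable def infl (β : ℝ) (J : Coupling d) (n : ℕ) (x : Site d) : ℝ := sSup (inflSet β J n x)

theorem spEA (β : ℝ) (J : Coupling d) : Sp (gE β J) where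
  unit Λ ω f hf := (t_BASIC d β J Λ ω).1 f hf
  const Λ ω := (t_BASIC d β J Λ ω).2.1
  mono Λ ω := (t_BASIC d β J Λ ω).2.2.1
  lin Λ ω := (t_BASIC d β J Λ ω).2.2.2.1
  cond Λ ω := (t_BASIC d β J Λ ω).2.2.2.2.1
  cons Λ ω := (t_BASIC d β J Λ ω).2.2.2.2.2.1
  loc Λ ω ω' f := (t_BASIC d β J Λ ω).2.2.2.2.2.2 ω' f

theorem unit_ind (x : Site d) : Unit01 (ind x) := fun σ => by
  unfold ind; split_ifs <;> norm_num

theorem local_ind (x : Site d) : LocalOn {x} (ind x) := fun σ σ' h => by
  unfold ind
  rw [h x (Finset.mem_singleton_self x)]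

theorem diff_le_one (β : ℝ) (J : Coupling d) (L : Finset (Site d)) (ω ω' : Site d → Bool)
    {f : (Site d → Bool) → ℝ} (hf : Unit01 f) : |gE β J L ω f - gE β J L ω' f| ≤ 1 := by
  have h1 := (spEA β J).unit L ω f hf
  have h2 := (spEA β J).unit L ω' f hf
  rw [abs_le]; constructor <;> linarith [h1.1, h1.2, h2.1, h2.2]

variable {β : ℝ} {J : Coupling d} {n : ℕ} {x : Site d}

theorem bdd : BddAbove (inflSet β J n x) := by
  refine ⟨1, ?_⟩
  rintro t ⟨L, ω, ω', -, -, rfl⟩
  exact diff_le_one β J L ω ω' (unit_ind x)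

theorem zero_mem : (0 : ℝ) ∈ inflSet β J n x :=
  ⟨{x}, fun _ => true, fun _ => true, by simp, by simp, by simp⟩

theorem infl_nonneg : 0 ≤ infl β J n x := le_csSup bdd zero_mem

theorem infl_le {b : ℝ} (hb : ∀ (L : Finset (Site d)) (ω ω' : Site d → Bool), x ∈ L →
    (∀ y, y ∉ L → dist1 x y < n → ω y = ω' y) →
    |gE β J L ω (ind x) - gE β J L ω' (ind x)| ≤ b) : infl β J n x ≤ b := by
  refine csSup_le ⟨0, zero_mem⟩ ?_
  rintro t ⟨L, ω, ω', hx, h, rfl⟩
  exact hb L ω ω' hx h

theorem infl_le_one : infl β J n x ≤ 1 :=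
  infl_le fun L ω ω' _ _ => diff_le_one β J L ω ω' (unit_ind x)

theorem le_infl (L : Finset (Site d)) (ω ω' : Site d → Bool) (hx : x ∈ L)
    (h : ∀ y, y ∉ L → dist1 x y < n → ω y = ω' y) :
    |gE β J L ω (ind x) - gE β J L ω' (ind x)| ≤ infl β J n x :=
  le_csSup bdd ⟨L, ω, ω', hx, h, rfl⟩

theorem infl_anti {n' : ℕ} (h : n ≤ n') : infl β J n' x ≤ infl β J n x :=
  infl_le fun L ω ω' hx h' => le_infl L ω ω' hx fun y hy hd => h' y hy (hd.trans_le h)

/-- volumes contained in the ball suffice -/
theorem restrict (hn : 1 ≤ n) {b : ℝ}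
    (hb : ∀ (L : Finset (Site d)) (ω ω' : Site d → Bool), x ∈ L → (∀ y ∈ L, dist1 x y < n) →
      (∀ y, y ∉ L → dist1 x y < n → ω y = ω' y) →
      |gE β J L ω (ind x) - gE β J L ω' (ind x)| ≤ b) : infl β J n x ≤ b := by
  classical
  refine infl_le fun Λ ω ω' hx hω => ?_
  set L : Finset (Site d) := Λ.filter (fun y => dist1 x y < n) with hL
  have hLΛ : L ⊆ Λ := Finset.filter_subset _ _
  have hLB : ∀ y ∈ L, dist1 x y < n := fun y hy => (Finset.mem_filter.1 hy).2
  have hxL : x ∈ L := Finset.mem_filter.2 ⟨hx, by rw [InfAux.dist_self]; omega⟩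
  have hinner : ∀ (η η' : Λ → Bool),
      |gE β J L (glue Λ η ω) (ind x) - gE β J L (glue Λ η' ω') (ind x)| ≤ b := by
    intro η η'
    refine hb L _ _ hxL hLB fun y hyL hy => ?_
    have hyΛ : y ∉ Λ := fun h => hyL (Finset.mem_filter.2 ⟨h, hy⟩)
    simp only [glue, hyΛ, dif_neg, not_false_iff]
    exact hω y hyΛ hy
  have s := spEA β J
  rw [s.cons Λ ω L hLΛ (ind x), s.cons Λ ω' L hLΛ (ind x)]
  set X := gE β J Λ ω (fun τ => gE β J L τ (ind x)) with hX
  have h1 : ∀ η' : Λ → Bool, |X - gE β J L (glue Λ η' ω') (ind x)| ≤ b := by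
    intro η'
    set c := gE β J L (glue Λ η' ω') (ind x) with hc
    have u1 : X ≤ c + b := by
      calc X ≤ gE β J Λ ω (fun _ => c + b) := s.mono _ _ _ _ fun η => by
            have := (abs_le.1 (hinner η η')).2
            show gE β J L (glue Λ η ω) (ind x) ≤ c + b
            linarith
        _ = c + b := s.const _ _ _
    have u2 : c - b ≤ X := by
      calc c - b = gE β J Λ ω (fun _ => c - b) := (s.const _ _ _).symm
        _ ≤ X := s.mono _ _ _ _ fun η => by
            have := (abs_le.1 (hinner η η')).1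
            show c - b ≤ gE β J L (glue Λ η ω) (ind x)
            linarith
    rw [abs_le]
    constructor <;> linarith
  set Y := gE β J Λ ω' (fun τ => gE β J L τ (ind x)) with hY
  have v1 : X - b ≤ Y := by
    calc X - b = gE β J Λ ω' (fun _ => X - b) := (s.const _ _ _).symm
      _ ≤ Y := s.mono _ _ _ _ fun η => by
          have := (abs_le.1 (h1 η)).2
          show X - b ≤ gE β J L (glue Λ η ω') (ind x)
          linarith
  have v2 : Y ≤ X + b := by
    calc Y ≤ gE β J Λ ω' (fun _ => X + b) := s.mono _ _ _ _ fun η => by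
          have := (abs_le.1 (h1 η)).1
          show gE β J L (glue Λ η ω') (ind x) ≤ X + b
          linarith
      _ = X + b := s.const _ _ _
  rw [abs_le]
  constructor <;> linarith

/-! ### dependence on the couplings -/

theorem ham_coupling {J J' : Coupling d} (Λ : Finset (Site d))
    (h : ∀ e (he : e ∈ (lat d).edgeSet), e ∈ edgesOf Λ → J ⟨e, he⟩ = J' ⟨e, he⟩)
    (σ : Site d → Bool) : ham J Λ σ = ham J' Λ σ := by
  unfold ham
  refine Finset.sum_congr rfl fun e he => ?_
  induction e using Sym2.ind with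
  | _ u v =>
    rw [Basic.bond_mk, Basic.bond_mk]
    congr 2
    unfold Jc
    by_cases hadj : (lat d).Adj u v
    · simp only [hadj, dif_pos]
      rw [h s(u, v) hadj he]
    · simp [hadj]

theorem gE_coupling (β : ℝ) {J J' : Coupling d} (Λ : Finset (Site d))
    (h : ∀ e (he : e ∈ (lat d).edgeSet), e ∈ edgesOf Λ → J ⟨e, he⟩ = J' ⟨e, he⟩)
    (ω : Site d → Bool) (f : (Site d → Bool) → ℝ) : gE β J Λ ω f = gE β J' Λ ω f := by
  unfold gE Zp
  simp only [ham_coupling Λ h]

open Classical in
/-- the edges touching the sites at distance less than `n` -/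
noncomputable def EF (n : ℕ) (x : Site d) : Finset (lat d).edgeSet :=
  (chainF n x).filter fun e => ∃ v ∈ e.1, dist1 x v < n

theorem mem_EF (n : ℕ) (x : Site d) (e : (lat d).edgeSet) :
    e ∈ EF n x ↔ (∀ v ∈ e.1, v ∈ ball x n) ∧ ∃ v ∈ e.1, dist1 x v < n := by
  classical
  unfold EF
  rw [Finset.mem_filter, chain_mem_F]

theorem infl_local (hn : 1 ≤ n) {J J' : Coupling d} (h : ∀ e ∈ EF n x, J e = J' e) :
    infl β J n x = infl β J' n x := by
  have key : ∀ J J' : Coupling d, (∀ e ∈ EF n x, J e = J' e) → infl β J n x ≤ infl β J' n x := by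
    intro J J' h
    refine restrict hn fun L ω ω' hx hL hω => ?_
    have e1 : ∀ τ, gE β J L τ (ind x) = gE β J' L τ (ind x) := by
      intro τ
      refine gE_coupling β L (fun e he heL => h ⟨e, he⟩ ?_) τ _
      obtain ⟨u, hu, v, huv, rfl⟩ := Basic.mem_edgesOf.1 heL
      have hxu := hL u hu
      rw [mem_EF]
      refine ⟨fun w hw => ?_, u, Sym2.mem_mk_left u v, hxu⟩
      rw [chain_mem_ball]
      have hw' : w ∈ s(u, v) := hw
      rw [Sym2.mem_iff] at hw'
      rcases hw' with rfl | rfl
      · exact hxu.le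
      · have := chain_dist_tri x u w
        omega
    rw [e1, e1]
    exact le_infl L ω ω' hx hω
  exact le_antisymm (key J J' h) (key J' J fun e he => (h e he).symm)

theorem EF_disjoint {x z : Site d} (h : 2 * n ≤ dist1 x z) : Disjoint (EF n x) (EF n z) := by
  rw [Finset.disjoint_left]
  intro e he he'
  rw [mem_EF] at he he'
  obtain ⟨-, v, hv, hxv⟩ := he
  obtain ⟨-, w, hw, hzw⟩ := he'
  have hvw : dist1 v w ≤ 1 := by
    obtain ⟨e, hee⟩ := e
    induction e using Sym2.ind with
    | _ a b =>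
      have hab : dist1 a b = 1 := hee
      have h1 : v ∈ s(a, b) := hv
      have h2 : w ∈ s(a, b) := hw
      rw [Sym2.mem_iff] at h1 h2
      rcases h1 with rfl | rfl <;> rcases h2 with rfl | rfl
      · rw [InfAux.dist_self]; omega
      · omega
      · rw [chain_dist_comm]; omega
      · rw [InfAux.dist_self]; omega
  have h3 := chain_dist_tri x v z
  have h4 := chain_dist_tri v w z
  rw [chain_dist_comm w z] at h4
  omega

/-! ### dependence on the temperature -/

theorem ham_bound (J : Coupling d) (Λ : Finset (Site d)) (σ : Site d → Bool) :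
    |ham J Λ σ| ≤ (edgesOf Λ).card := by
  unfold ham
  refine (Finset.abs_sum_le_sum_abs _ _).trans ?_
  rw [← nsmul_one, ← Finset.sum_const]
  refine Finset.sum_le_sum fun e _ => ?_
  induction e using Sym2.ind with
  | _ u v =>
    rw [Basic.bond_mk, abs_mul, abs_mul]
    have h1 := InfAux.abs_Jc_le J u v
    have h2 : ∀ b : Bool, |sg b| = 1 := fun b => by unfold sg; split_ifs <;> norm_num
    rw [h2, h2, mul_one, mul_one]
    exact h1

theorem gE_beta (β β' : ℝ) (J : Coupling d) (L : Finset (Site d)) (ω : Site d → Bool)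
    {f : (Site d → Bool) → ℝ} (hf : Unit01 f) {M : ℝ} (hM : ((edgesOf L).card : ℝ) ≤ M) :
    |gE β J L ω f - gE β' J L ω f| ≤ Real.exp (2 * (|β - β'| * M)) - 1 := by
  have key : ∀ β β' : ℝ, gE β J L ω f ≤ gE β' J L ω f + (Real.exp (2 * (|β - β'| * M)) - 1) := by
    intro β β'
    set c := |β - β'| * M with hc
    have hM0 : 0 ≤ M := le_trans (Nat.cast_nonneg _) hM
    have hc0 : 0 ≤ c := by positivity
    have hw : ∀ (b b' : ℝ), |b - b'| = |β - β'| → ∀ η : L → Bool,
        Real.exp (b * ham J L (glue L η ω)) ≤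
          Real.exp c * Real.exp (b' * ham J L (glue L η ω)) := by
      intro b b' hb η
      rw [← Real.exp_add]
      apply Real.exp_le_exp.2
      have h1 := ham_bound J L (glue L η ω)
      have h2 : (b - b') * ham J L (glue L η ω) ≤ c := by
        refine (le_abs_self _).trans ?_
        rw [abs_mul, hb, hc]
        exact mul_le_mul_of_nonneg_left (h1.trans hM) (abs_nonneg _)
      linarith
    have hZ1 : 0 < Zp β J L ω := Basic.Zp_pos β J L ω
    have hZ2 : 0 < Zp β' J L ω := Basic.Zp_pos β' J L ω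
    have hN : (∑ η : L → Bool, Real.exp (β * ham J L (glue L η ω)) * f (glue L η ω)) ≤
        Real.exp c * ∑ η : L → Bool, Real.exp (β' * ham J L (glue L η ω)) * f (glue L η ω) := by
      rw [Finset.mul_sum]
      refine Finset.sum_le_sum fun η _ => ?_
      rw [← mul_assoc]
      exact mul_le_mul_of_nonneg_right (hw β β' rfl η) (hf _).1
    have hZ : Zp β' J L ω ≤ Real.exp c * Zp β J L ω := by
      unfold Zp
      rw [Finset.mul_sum]
      exact Finset.sum_le_sum fun η _ => hw β' β (abs_sub_comm _ _) η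
    have hN0 : 0 ≤ ∑ η : L → Bool, Real.exp (β' * ham J L (glue L η ω)) * f (glue L η ω) :=
      Finset.sum_nonneg fun η _ => mul_nonneg (Real.exp_pos _).le (hf _).1
    have h1 : gE β J L ω f ≤ Real.exp (2 * c) * gE β' J L ω f := by
      unfold gE
      rw [div_le_iff₀ hZ1]
      calc _ ≤ Real.exp c * ∑ η : L → Bool,
              Real.exp (β' * ham J L (glue L η ω)) * f (glue L η ω) := hN
        _ = Real.exp c * ((∑ η : L → Bool,
              Real.exp (β' * ham J L (glue L η ω)) * f (glue L η ω)) / Zp β' J L ω *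
                Zp β' J L ω) := by
            rw [div_mul_cancel₀ _ hZ2.ne']
        _ ≤ Real.exp c * ((∑ η : L → Bool,
              Real.exp (β' * ham J L (glue L η ω)) * f (glue L η ω)) / Zp β' J L ω *
                (Real.exp c * Zp β J L ω)) := by
            gcongr
        _ = _ := by
            rw [two_mul, Real.exp_add]; ring
    have h2 := ((spEA β' J).unit L ω f hf)
    have h3 : 1 ≤ Real.exp (2 * c) := Real.one_le_exp (by positivity)
    nlinarith [h2.1, h2.2]
  rw [abs_le]
  constructor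
  · have := key β' β
    rw [abs_sub_comm] at this
    linarith
  · linarith [key β β']

theorem card_ball_le (x : Site d) (r : ℕ) : (ball x r).card ≤ (2 * r + 1) ^ d := by
  unfold ball
  refine (Finset.card_filter_le _ _).trans ?_
  rw [Pi.card_Icc]
  have : ∀ i : Fin d, (Finset.Icc (x i - (r : ℤ)) (x i + r)).card = 2 * r + 1 := by
    intro i
    rw [Int.card_Icc]
    omega
  rw [Finset.prod_congr rfl fun i _ => this i]
  simp

theorem card_edges (x : Site d) (L : Finset (Site d)) (hL : ∀ y ∈ L, dist1 x y < n) :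
    (edgesOf L).card ≤ (2 * n + 1) ^ d * (2 * d) := by
  unfold edgesOf
  refine (Finset.card_biUnion_le_card_mul L _ (2 * d) fun y _ =>
    Finset.card_image_le.trans (InfAux.nbr_card y)).trans ?_
  refine Nat.mul_le_mul_right _ ?_
  have h1 : L ⊆ ball x n := fun y hy => (chain_mem_ball x y n).2 (hL y hy).le
  exact (Finset.card_le_card h1).trans (card_ball_le x n)

/-- modulus of continuity in the temperature -/
noncomputable def modul (d n : ℕ) (t : ℝ) : ℝ :=
  2 * (Real.exp (2 * (t * ((2 * n + 1) ^ d * (2 * d) : ℕ))) - 1)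

theorem infl_beta (hn : 1 ≤ n) (β β' : ℝ) :
    infl β' J n x ≤ infl β J n x + modul d n |β - β'| := by
  refine restrict hn fun L ω ω' hx hL hω => ?_
  have hM : ((edgesOf L).card : ℝ) ≤ ((2 * n + 1) ^ d * (2 * d) : ℕ) := by
    exact_mod_cast card_edges x L hL
  have h1 := gE_beta β β' J L ω (unit_ind x) hM
  have h2 := gE_beta β β' J L ω' (unit_ind x) hM
  have h3 := le_infl (β := β) (J := J) L ω ω' hx hω
  unfold modul
  rw [abs_le] at h1 h2 h3 ⊢
  constructor <;> linarith [h1.1, h1.2, h2.1, h2.2, h3.1, h3.2]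

theorem modul_tendsto (d n : ℕ) : Filter.Tendsto (modul d n) (nhds 0) (nhds 0) := by
  have h : Continuous (modul d n) := by
    unfold modul
    fun_prop
  have h0 : modul d n 0 = 0 := by unfold modul; simp
  have := h.tendsto 0
  rwa [h0] at this

theorem modul_mono (d n : ℕ) {s t : ℝ} (h : s ≤ t) : modul d n s ≤ modul d n t := by
  unfold modul
  gcongr

end Pool.Agent.Helper79K9.FS
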