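import Pool.Agent.Helper79K9.FS.A1

/-!
# Chain sums with independent weights
-/

set_option autoImplicit false

open MeasureTheory
open scoped ENNReal

namespace Pool.Agent.Helper79K9.FS

open Pool.H47EA

variable {d : ℕ}

/-- the sphere of radius `r` -/
noncomputable def sph (x : Site d) (r : ℕ) : Finset (Site d) :=
  (ball x r).filter fun y => dist1 x y = r

theorem mem_sph (x y : Site d) (r : ℕ) : y ∈ sph x r ↔ dist1 x y = r := by
  unfold sph
  rw [Finset.mem_filter, chain_mem_ball]
  constructor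
  · exact fun h => h.2
  · exact fun h => ⟨h.le, h⟩

theorem dist_add (x y v : Site d) : dist1 (x + v) (y + v) = dist1 x y := by
  unfold dist1
  refine Finset.sum_congr rfl fun i _ => ?_
  simp

theorem card_sph (x : Site d) (r : ℕ) : (sph x r).card = (sph (0 : Site d) r).card := by
  refine Finset.card_bij' (fun y _ => y - x) (fun y _ => y + x) ?_ ?_ ?_ ?_
  · intro y hy
    rw [mem_sph] at hy ⊢
    rw [← hy, ← dist_add 0 (y - x) x]
    simp
  · intro y hy
    rw [mem_sph] at hy ⊢
    rw [← hy, ← dist_add 0 y x]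
    simp
  · intro y _; simp
  · intro y _; simp

theorem card_sph_pos (hd : 1 ≤ d) (r : ℕ) : 0 < (sph (0 : Site d) r).card := by
  rw [Finset.card_pos]
  refine ⟨Pi.single ⟨0, hd⟩ (r : ℤ), ?_⟩
  rw [mem_sph]
  unfold dist1
  rw [Finset.sum_eq_single (⟨0, hd⟩ : Fin d)]
  · simp
  · intro i _ hi
    rw [Pi.single_eq_of_ne hi]; simp
  · intro h; exact absurd (Finset.mem_univ _) h

theorem card_sph_le (r : ℕ) : (sph (0 : Site d) r).card ≤ (2 * r + 1) ^ d :=
  (Finset.card_le_card (Finset.filter_subset _ _)).trans (card_ball_le 0 r)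

/-- products of independent weights -/
theorem lint_prod (P : Site d → Coupling d → ℝ≥0∞) (F : Site d → Finset (lat d).edgeSet)
    (hP : ∀ x (J J' : Coupling d), (∀ e ∈ F x, J e = J' e) → P x J = P x J') (m : ℝ≥0∞)
    (hm : ∀ x, ∫⁻ J, P x J ∂(couplingLaw d) ≤ m) :
    ∀ l : List (Site d), l.Pairwise (fun x z => Disjoint (F x) (F z)) →
      ∫⁻ J, (l.map (fun x => P x J)).prod ∂(couplingLaw d) ≤ m ^ l.length := by
  classical
  have hloc : ∀ (l : List (Site d)) (J J' : Coupling d), (∀ e ∈ l.toFinset.biUnion F, J e = J' e) →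
      (l.map (fun x => P x J)).prod = (l.map (fun x => P x J')).prod := by
    intro l J J' h
    congr 1
    refine List.map_congr_left fun z hz => hP z J J' fun e he => h e ?_
    exact Finset.mem_biUnion.2 ⟨z, List.mem_toFinset.2 hz, he⟩
  intro l
  induction l with
  | nil => intro _; simp
  | cons x l ih =>
    intro hl
    rw [List.pairwise_cons] at hl
    have hdisj : Disjoint (F x) (l.toFinset.biUnion F) := by
      rw [Finset.disjoint_biUnion_right]
      exact fun z hz => hl.1 z (List.mem_toFinset.1 hz)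
    simp only [List.map_cons, List.prod_cons, List.length_cons]
    rw [chain_indep (F x) (l.toFinset.biUnion F) hdisj _ _ (hP x) (hloc l), pow_succ']
    exact mul_le_mul' (hm x) (ih hl.2)

theorem meas_prod (P : Site d → Coupling d → ℝ≥0∞) (F : Site d → Finset (lat d).edgeSet)
    (hP : ∀ x (J J' : Coupling d), (∀ e ∈ F x, J e = J' e) → P x J = P x J') (l : List (Site d)) :
    Measurable fun J => (l.map (fun x => P x J)).prod := by
  classical
  refine chain_meas (l.toFinset.biUnion F) _ fun J J' h => ?_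
  congr 1
  refine List.map_congr_left fun z hz => hP z J J' fun e he => h e ?_
  exact Finset.mem_biUnion.2 ⟨z, List.mem_toFinset.2 hz, he⟩

open Classical in
/-- finite sets containing the chains of length `m + 1` from `x` -/
noncomputable def cS (R' : ℕ) (x : Site d) : ℕ → Finset (List (Site d))
  | 0 => (ball x R').image fun y => [y]
  | (m + 1) => (cS R' x m).biUnion fun l => (sph (l.headD 0) (R' + 1)).image fun y => y :: l

theorem cS_card (R' : ℕ) (x : Site d) : ∀ m, (cS R' x m).card ≤
    (2 * R' + 1) ^ d * (sph (0 : Site d) (R' + 1)).card ^ m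
  | 0 => by
    rw [cS, pow_zero, mul_one]
    exact Finset.card_image_le.trans (card_ball_le x R')
  | (m + 1) => by
    rw [cS, pow_succ, ← mul_assoc]
    refine (Finset.card_biUnion_le_card_mul _ _ (sph (0 : Site d) (R' + 1)).card fun a _ =>
      Finset.card_image_le.trans (card_sph _ _).le).trans ?_
    exact Nat.mul_le_mul_right _ (cS_card R' x m)

theorem mem_cS (R' : ℕ) (x : Site d) : ∀ l : List (Site d), IsCh R' {x} l →
    l ∈ cS R' x (l.length - 1) ∧ 1 ≤ l.length
  | [], h => h.elim
  | [y], h => by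
    classical
    obtain ⟨a, ha, hay⟩ := h
    rw [Finset.mem_singleton] at ha
    subst ha
    refine ⟨?_, by simp⟩
    simp only [List.length_cons, List.length_nil, zero_add, Nat.sub_self, cS, Finset.mem_image]
    exact ⟨y, (chain_mem_ball a y _).2 hay, rfl⟩
  | (y :: z :: l), h => by
    classical
    obtain ⟨h1, _, h3⟩ := h
    obtain ⟨h4, _⟩ := mem_cS R' x (z :: l) h3
    refine ⟨?_, by simp⟩
    simp only [List.length_cons, Nat.add_sub_cancel, cS, Finset.mem_biUnion,
      Finset.mem_image] at h4 ⊢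
    refine ⟨z :: l, h4, y, (mem_sph _ _ _).2 ?_, rfl⟩
    rw [List.headD_cons, chain_dist_comm, h1]

/-- number of chains against their weights -/
theorem sum_bound (R' : ℕ) (x : Site d) (c : ℝ≥0∞)
    (w : List (Site d) → ℝ≥0∞) (hw : ∀ l, IsCh R' {x} l → w l ≤ c ^ l.length)
    (hw' : ∀ l, ¬ IsCh R' {x} l → w l = 0) :
    ∑' l, w l ≤ ((2 * R' + 1) ^ d : ℕ) * c *
      (1 - ((sph (0 : Site d) (R' + 1)).card : ℝ≥0∞) * c)⁻¹ := by
  classical
  set N := (sph (0 : Site d) (R' + 1)).card with hN
  have h1 : ∀ l, w l ≤ ∑' m : ℕ, if l ∈ cS R' x m then c ^ (m + 1) else 0 := by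
    intro l
    by_cases hl : IsCh R' {x} l
    · obtain ⟨h2, h3⟩ := mem_cS R' x l hl
      refine (hw l hl).trans ?_
      refine le_trans ?_ (ENNReal.le_tsum (l.length - 1))
      rw [if_pos h2, Nat.sub_add_cancel h3]
    · rw [hw' l hl]; exact zero_le
  calc ∑' l, w l ≤ ∑' l, ∑' m : ℕ, (if l ∈ cS R' x m then c ^ (m + 1) else 0) :=
        ENNReal.tsum_le_tsum h1
    _ = ∑' m : ℕ, ∑' l, (if l ∈ cS R' x m then c ^ (m + 1) else 0) := ENNReal.tsum_comm
    _ ≤ ∑' m : ℕ, ((2 * R' + 1) ^ d : ℕ) * c * ((N : ℝ≥0∞) * c) ^ m := by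
        refine ENNReal.tsum_le_tsum fun m => ?_
        rw [tsum_eq_sum (s := cS R' x m) (fun l hl => if_neg hl),
          Finset.sum_congr rfl (fun l hl => if_pos hl), Finset.sum_const, nsmul_eq_mul]
        calc ((cS R' x m).card : ℝ≥0∞) * c ^ (m + 1)
            ≤ (((2 * R' + 1) ^ d * N ^ m : ℕ) : ℝ≥0∞) * c ^ (m + 1) := by
              gcongr
              exact cS_card R' x m
          _ = _ := by push_cast; rw [mul_pow]; ring
    _ = _ := by rw [ENNReal.tsum_mul_left, ENNReal.tsum_geometric]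

theorem pairwise_dist (R' : ℕ) (x : Site d) (l : List (Site d)) (h : IsCh R' {x} l) :
    l.Pairwise (fun y z => R' + 1 ≤ dist1 y z) := chain_pairwise R' {x} l h

open Classical in
/-- total weight of the chains which end near `x`, with a factor `θ` for each site -/
noncomputable def SK (R' : ℕ) (θ : ℝ≥0∞) (P : Site d → Coupling d → ℝ≥0∞) (x : Site d)
    (J : Coupling d) : ℝ≥0∞ :=
  ∑' l : List (Site d), if IsCh R' {x} l then θ ^ l.length * (l.map (fun x => P x J)).prod else 0

open Classical in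
theorem SK_meas (R' : ℕ) (θ : ℝ≥0∞) (P : Site d → Coupling d → ℝ≥0∞)
    (F : Site d → Finset (lat d).edgeSet)
    (hP : ∀ x (J J' : Coupling d), (∀ e ∈ F x, J e = J' e) → P x J = P x J') (x : Site d) :
    Measurable (SK R' θ P x) := by
  unfold SK
  refine Measurable.tsum fun l => ?_
  by_cases hl : IsCh R' {x} l
  · simp only [if_pos hl]
    exact measurable_const.mul (meas_prod P F hP l)
  · simp only [if_neg hl]
    exact measurable_const

open Classical in
theorem SK_int (R' : ℕ) (θ : ℝ≥0∞) (P : Site d → Coupling d → ℝ≥0∞)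
    (F : Site d → Finset (lat d).edgeSet)
    (hP : ∀ x (J J' : Coupling d), (∀ e ∈ F x, J e = J' e) → P x J = P x J')
    (hF : ∀ x z : Site d, R' + 1 ≤ dist1 x z → Disjoint (F x) (F z)) (m : ℝ≥0∞)
    (hm : ∀ x, ∫⁻ J, P x J ∂(couplingLaw d) ≤ m) (x : Site d) :
    ∫⁻ J, SK R' θ P x J ∂(couplingLaw d) ≤ ((2 * R' + 1) ^ d : ℕ) * (θ * m) *
      (1 - ((sph (0 : Site d) (R' + 1)).card : ℝ≥0∞) * (θ * m))⁻¹ := by
  have hmeas : ∀ l, Measurable (fun J : Coupling d => if IsCh R' {x} l then
      θ ^ l.length * (l.map (fun x => P x J)).prod else 0) := by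
    intro l
    by_cases hl : IsCh R' {x} l
    · simp only [if_pos hl]
      exact measurable_const.mul (meas_prod P F hP l)
    · simp only [if_neg hl]
      exact measurable_const
  unfold SK
  rw [lintegral_tsum (fun l => (hmeas l).aemeasurable)]
  refine sum_bound R' x (θ * m) _ (fun l hl => ?_) (fun l hl => ?_)
  · simp only [if_pos hl]
    rw [lintegral_const_mul _ (meas_prod P F hP l), mul_pow]
    gcongr
    exact lint_prod P F hP m hm l ((pairwise_dist R' x l hl).imp fun {y z} h => hF y z h)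
  · simp only [if_neg hl, lintegral_zero]

theorem isCh_single (R' : ℕ) (A : Finset (Site d)) : ∀ l : List (Site d), IsCh R' A l →
    ∃ a ∈ A, IsCh R' {a} l
  | [], h => h.elim
  | [x], h => by
    obtain ⟨a, ha, hax⟩ := h
    exact ⟨a, ha, a, Finset.mem_singleton_self a, hax⟩
  | (x :: y :: l), h => by
    obtain ⟨h1, h2, h3⟩ := h
    obtain ⟨a, ha, h4⟩ := isCh_single R' A (y :: l) h3
    exact ⟨a, ha, h1, h2, h4⟩

open Classical in
theorem chSum_le (R' : ℕ) {θ : ℝ≥0∞} (hθ : 1 ≤ θ) (P : Site d → Coupling d → ℝ≥0∞)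
    (A : Finset (Site d)) (J : Coupling d) (n : ℕ) :
    chSum R' A (fun x => P x J) n * θ ^ n ≤ ∑ a ∈ A, SK R' θ P a J := by
  unfold chSum SK
  rw [← ENNReal.tsum_mul_right, ← Summable.tsum_finsetSum (fun a _ => ENNReal.summable)]
  refine ENNReal.tsum_le_tsum fun l => ?_
  by_cases hl : IsCh R' A l ∧ n ≤ l.length
  · rw [if_pos hl]
    obtain ⟨a, ha, hal⟩ := isCh_single R' A l hl.1
    refine le_trans ?_ (Finset.single_le_sum (f := fun a => if IsCh R' {a} l then
      θ ^ l.length * (l.map (fun x => P x J)).prod else 0) (fun _ _ => zero_le) ha)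
    simp only [if_pos hal]
    rw [mul_comm]
    have h1 : θ ^ n ≤ θ ^ l.length := pow_le_pow_right₀ hθ hl.2
    gcongr
  · rw [if_neg hl, zero_mul]
    exact zero_le

theorem chSum_mono (R' : ℕ) (A : Finset (Site d)) {p q : Site d → ℝ≥0∞} (h : ∀ x, p x ≤ q x)
    (n : ℕ) : chSum R' A p n ≤ chSum R' A q n := by
  classical
  unfold chSum
  refine ENNReal.tsum_le_tsum fun l => ?_
  split_ifs
  · clear * - h
    induction l with
    | nil => simp
    | cons x l ih =>
      simp only [List.map_cons, List.prod_cons]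
      exact mul_le_mul' (h x) ih
  · exact le_rfl

end Pool.Agent.Helper79K9.FS
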