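import Pool.Agent.Helper79K9.FS.A2

/-!
# The finite-volume criterion
-/

set_option autoImplicit false

open MeasureTheory
open scoped ENNReal

namespace Pool.Agent.Helper79K9.FS

open Pool.H47EA
open Pool.Agent.Helper79K9.EA (Sp expl)

variable {d : ℕ}

/-- Exponential decay, with rate `a`, of the influence of the boundary condition. -/
def DecaysAt (g : Finset (Site d) → (Site d → Bool) → ((Site d → Bool) → ℝ) → ℝ)
    (K : Site d → ℝ) (a : ℝ) : Prop :=
  ∀ (A Λ : Finset (Site d)) (f : (Site d → Bool) → ℝ), Unit01 f → LocalOn A f →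
    ∀ (n : ℕ) (ω ω' : Site d → Bool),
      (∀ x ∈ A, ∀ y, y ∉ Λ → ω y ≠ ω' y → n ≤ dist1 x y) →
      |g Λ ω f - g Λ ω' f| ≤ (∑ x ∈ A, K x) * Real.exp (-(a * n))

/-- The expected greatest influence, on the spin at a site, of the boundary condition at distance at
least `n`. -/
noncomputable def mm (d : ℕ) (β : ℝ) (n : ℕ) : ℝ :=
  ⨆ x : Site d, ∫ J, infl β J n x ∂(couplingLaw d)

theorem meas_infl {n : ℕ} (hn : 1 ≤ n) (β : ℝ) (x : Site d) :
    Measurable (fun J : Coupling d => infl β J n x) := by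
  have h1 := chain_meas (EF n x) (fun J => ENNReal.ofReal (infl β J n x))
    (fun J J' h => by rw [infl_local hn h])
  have h2 := h1.ennreal_toReal
  simpa [ENNReal.toReal_ofReal infl_nonneg] using h2

theorem int_infl {n : ℕ} (hn : 1 ≤ n) (β : ℝ) (x : Site d) :
    Integrable (fun J : Coupling d => infl β J n x) (couplingLaw d) :=
  Integrable.of_bound (meas_infl hn β x).aestronglyMeasurable 1 (ae_of_all _ fun J => by
    rw [Real.norm_eq_abs, abs_of_nonneg infl_nonneg]; exact infl_le_one)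

theorem int_infl_le {n : ℕ} (hn : 1 ≤ n) (β : ℝ) (x : Site d) :
    ∫ J, infl β J n x ∂(couplingLaw d) ≤ 1 := by
  have h := integral_mono (int_infl hn β x) (integrable_const (1 : ℝ)) fun J => infl_le_one
  simpa using h

theorem bdd_mm {n : ℕ} (hn : 1 ≤ n) (β : ℝ) :
    BddAbove (Set.range fun x : Site d => ∫ J, infl β J n x ∂(couplingLaw d)) :=
  ⟨1, by rintro _ ⟨x, rfl⟩; exact int_infl_le hn β x⟩

theorem le_mm {n : ℕ} (hn : 1 ≤ n) (β : ℝ) (x : Site d) :
    ∫ J, infl β J n x ∂(couplingLaw d) ≤ mm d β n := le_ciSup (bdd_mm hn β) x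

theorem mm_nonneg {n : ℕ} (hn : 1 ≤ n) (β : ℝ) : 0 ≤ mm d β n :=
  (integral_nonneg fun J => infl_nonneg).trans (le_mm hn β 0)

theorem mm_le {n : ℕ} {β b : ℝ} (h : ∀ x : Site d, ∫ J, infl β J n x ∂(couplingLaw d) ≤ b) :
    mm d β n ≤ b := ciSup_le h

/-- exponential decay from a finite sum of weights -/
theorem decay (β : ℝ) (J : Coupling d) {n0 : ℕ} (hn0 : 1 ≤ n0) {θ : ℝ} (hθ : 1 < θ)
    (P : Site d → Coupling d → ℝ≥0∞) (hP : ∀ x, ENNReal.ofReal (infl β J n0 x) ≤ P x J)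
    (hfin : ∀ x, SK (2 * n0 - 1) (ENNReal.ofReal θ) P x J ≠ ∞) :
    DecaysAt (gE β J) (fun x => θ ^ 2 * (1 + (SK (2 * n0 - 1) (ENNReal.ofReal θ) P x J).toReal))
      (Real.log θ / (2 * n0)) := by
  classical
  intro A Λ f hf hfA n ω ω' hA
  have hb := spEA β J
  have hn0' : (0 : ℝ) < n0 := by exact_mod_cast hn0
  have hθ0 : 0 < θ := by linarith
  rcases A.eq_empty_or_nonempty with hAe | hAne
  · subst hAe
    have hc : f = fun _ => f ω := by
      funext σ
      exact hfA _ _ (by simp)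
    rw [hc, hb.const, hb.const]
    simp
  set R' := 2 * n0 - 1 with hR'
  have hR1 : R' + 1 = 2 * n0 := by omega
  rw [← Finset.mul_sum, Finset.sum_add_distrib]
  simp only [Finset.sum_const, nsmul_eq_mul, mul_one]
  have hcard : (1 : ℝ) ≤ A.card := by exact_mod_cast hAne.card_pos
  set X := ∑ a ∈ A, (SK R' (ENNReal.ofReal θ) P a J).toReal with hX
  have hS0 : 0 ≤ X := Finset.sum_nonneg fun _ _ => ENNReal.toReal_nonneg
  set q := n / (2 * n0) with hq
  have hn : n < (q + 1) * (2 * n0) := by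
    rw [hq]
    have := Nat.lt_div_mul_add (a := n) (b := 2 * n0) (by omega)
    rw [add_mul, one_mul]
    exact this
  have hexp : (θ⁻¹) ^ (q + 1) ≤ Real.exp (-(Real.log θ / (2 * n0) * n)) := by
    have h1 : (n : ℝ) ≤ (q + 1) * (2 * n0) := by exact_mod_cast hn.le
    have h2 : Real.log θ / (2 * n0) * n ≤ Real.log θ * (q + 1) := by
      rw [div_mul_eq_mul_div, div_le_iff₀ (by positivity)]
      calc Real.log θ * n ≤ Real.log θ * ((q + 1) * (2 * n0)) :=
            mul_le_mul_of_nonneg_left h1 (Real.log_nonneg hθ.le)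
        _ = _ := by ring
    have h3 : (θ⁻¹) ^ (q + 1) = Real.exp (-(Real.log θ * (q + 1))) := by
      rw [← Real.exp_log hθ0, ← Real.exp_neg, ← Real.exp_nat_mul, Real.exp_log hθ0]
      congr 1
      push_cast
      ring
    rw [h3]
    apply Real.exp_le_exp.2
    linarith
  rcases Nat.eq_zero_or_pos q with hq0 | hqpos
  · have h1 : |gE β J Λ ω f - gE β J Λ ω' f| ≤ 1 := diff_le_one β J Λ ω ω' hf
    rw [hq0, zero_add, pow_one] at hexp
    calc |gE β J Λ ω f - gE β J Λ ω' f| ≤ 1 := h1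
      _ ≤ θ := hθ.le
      _ = θ ^ 2 * (1 + 0) * θ⁻¹ := by field_simp; ring
      _ ≤ θ ^ 2 * (A.card + X) * Real.exp (-(Real.log θ / (2 * n0) * n)) := by gcongr
  · obtain ⟨k, hk⟩ : ∃ k, q = k + 1 := ⟨q - 1, by omega⟩
    have hkn : (k + 1) * (2 * n0) ≤ n := by
      rw [← hk, hq]
      exact Nat.div_mul_le_self n _
    have h1 := expl hb (n0 - 1) R' (by omega) (fun x => infl β J n0 x)
      (fun x Λ hx ω ω' h => le_infl Λ ω ω' hx fun y hy hd =>
        h y ((chain_mem_ball x y _).2 (by omega)) hy) A f hf hfA Λ k ω ω'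
      (fun a ha y hy hne => by rw [hR1]; exact hkn.trans (hA a ha y hy hne))
    have h1' := h1.trans (chSum_mono R' A (fun x => hP x) k)
    have hθ1 : (1 : ℝ≥0∞) ≤ ENNReal.ofReal θ := by
      rw [← ENNReal.ofReal_one]; exact ENNReal.ofReal_le_ofReal hθ.le
    have h2 := chSum_le R' hθ1 P A J k
    have h3 : ENNReal.ofReal |gE β J Λ ω f - gE β J Λ ω' f| * ENNReal.ofReal θ ^ k ≤
        ∑ a ∈ A, SK R' (ENNReal.ofReal θ) P a J :=
      (mul_le_mul_left h1' _).trans h2
    have h4 : |gE β J Λ ω f - gE β J Λ ω' f| * θ ^ k ≤ X := by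
      have h5 := ENNReal.toReal_mono (ENNReal.sum_ne_top.2 fun a _ => hfin a) h3
      rw [ENNReal.toReal_mul, ENNReal.toReal_ofReal (abs_nonneg _), ENNReal.toReal_pow,
        ENNReal.toReal_ofReal hθ0.le, ENNReal.toReal_sum (fun a _ => hfin a)] at h5
      exact h5
    have hθk : (0 : ℝ) < θ ^ k := by positivity
    calc |gE β J Λ ω f - gE β J Λ ω' f| ≤ X / θ ^ k := by rwa [le_div_iff₀ hθk]
      _ = θ ^ 2 * X * (θ⁻¹) ^ (q + 1) := by
          rw [hk, inv_pow, pow_succ θ (k + 1), pow_succ θ k]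
          field_simp
      _ ≤ θ ^ 2 * (A.card + X) * Real.exp (-(Real.log θ / (2 * n0) * n)) := by
          gcongr
          linarith

open Filter Topology in
/-- **finite-volume criterion**, locally uniform in the temperature -/
theorem local_main (hd : 1 ≤ d) (β0 : ℝ) {n0 : ℕ} (hn0 : 1 ≤ n0)
    (h : ((sph (0 : Site d) (2 * n0)).card : ℝ) * mm d β0 n0 < 1) :
    ∃ ε : ℝ, 0 < ε ∧ ∃ a : ℝ, 0 < a ∧ ∃ C : ℝ, 0 ≤ C ∧ ∃ K : Site d → Coupling d → ℝ,
      (∀ x, (∀ J, 0 ≤ K x J) ∧ Integrable (K x) (couplingLaw d) ∧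
        ∫ J, K x J ∂(couplingLaw d) ≤ C) ∧
      ∀ᵐ J ∂(couplingLaw d), ∀ β : ℝ, |β - β0| < ε → DecaysAt (gE β J) (fun x => K x J) a := by
  set N : ℝ := ((sph (0 : Site d) (2 * n0)).card : ℝ) with hN
  have hN1 : 1 ≤ N := by
    rw [hN]; exact_mod_cast card_sph_pos hd (2 * n0)
  have hN0 : 0 < N := by linarith
  set m := mm d β0 n0 with hm
  have hm0 : 0 ≤ m := mm_nonneg hn0 β0
  set m' : ℝ := (m + 1 / N) / 2 with hm'
  have hmN : m < 1 / N := by rw [lt_div_iff₀ hN0]; linarith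
  have hmm' : m < m' := by rw [hm']; linarith
  have hm'0 : 0 < m' := by linarith
  have hNm' : N * m' < 1 := by
    have : m' < 1 / N := by rw [hm']; linarith
    rw [lt_div_iff₀ hN0] at this
    linarith
  set δ := m' - m with hδ
  have hδ0 : 0 < δ := by linarith
  set θ : ℝ := (1 + 1 / (N * m')) / 2 with hθd
  have hNm'0 : 0 < N * m' := by positivity
  have h1N : 1 < 1 / (N * m') := by rw [lt_div_iff₀ hNm'0]; linarith
  have hθ : 1 < θ := by rw [hθd]; linarith
  have hθ0 : 0 < θ := by linarith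
  have hNθ : N * (θ * m') < 1 := by
    have : N * (θ * m') = (N * m' + 1) / 2 := by
      rw [hθd]; field_simp
    rw [this]; linarith
  obtain ⟨ε, hε, hεm⟩ : ∃ ε : ℝ, 0 < ε ∧ ∀ t : ℝ, |t| < ε → modul d n0 t < δ := by
    have h1 := (modul_tendsto d n0).eventually (gt_mem_nhds hδ0)
    rw [Metric.eventually_nhds_iff] at h1
    obtain ⟨ε, hε, h2⟩ := h1
    exact ⟨ε, hε, fun t ht => h2 (by rw [Real.dist_eq, sub_zero]; exact ht)⟩
  set R' := 2 * n0 - 1 with hR'
  have hR1 : R' + 1 = 2 * n0 := by omega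
  set P : Site d → Coupling d → ℝ≥0∞ := fun x J => ENNReal.ofReal (infl β0 J n0 x + δ) with hPd
  have hP : ∀ x (J J' : Coupling d), (∀ e ∈ EF n0 x, J e = J' e) → P x J = P x J' := by
    intro x J J' h
    simp only [hPd]
    rw [infl_local hn0 h]
  have hF : ∀ x z : Site d, R' + 1 ≤ dist1 x z → Disjoint (EF n0 x) (EF n0 z) := by
    intro x z h
    rw [hR1] at h
    exact EF_disjoint h
  have hPm : ∀ x, ∫⁻ J, P x J ∂(couplingLaw d) ≤ ENNReal.ofReal m' := by
    intro x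
    have hi : Integrable (fun J : Coupling d => infl β0 J n0 x + δ) (couplingLaw d) :=
      (int_infl hn0 β0 x).add (integrable_const _)
    simp only [hPd]
    rw [← ofReal_integral_eq_lintegral_ofReal hi (ae_of_all _ fun J => by
      have := infl_nonneg (β := β0) (J := J) (n := n0) (x := x)
      show 0 ≤ infl β0 J n0 x + δ
      linarith)]
    apply ENNReal.ofReal_le_ofReal
    rw [integral_add (int_infl hn0 β0 x) (integrable_const _)]
    have := le_mm hn0 β0 x
    simp only [integral_const, probReal_univ, smul_eq_mul, one_mul]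
    linarith
  have hlt : ((sph (0 : Site d) (R' + 1)).card : ℝ≥0∞) * (ENNReal.ofReal θ * ENNReal.ofReal m') < 1 := by
    rw [hR1, ← ENNReal.ofReal_mul hθ0.le, ← ENNReal.ofReal_natCast, ← ENNReal.ofReal_mul hN0.le,
      ← ENNReal.ofReal_one]
    exact (ENNReal.ofReal_lt_ofReal_iff one_pos).2 hNθ
  set B : ℝ≥0∞ := ((2 * R' + 1) ^ d : ℕ) * (ENNReal.ofReal θ * ENNReal.ofReal m') *
      (1 - ((sph (0 : Site d) (R' + 1)).card : ℝ≥0∞) * (ENNReal.ofReal θ * ENNReal.ofReal m'))⁻¹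
    with hB
  have hBfin : B ≠ ∞ := by
    refine ENNReal.mul_ne_top (ENNReal.mul_ne_top (ENNReal.natCast_ne_top _)
      (ENNReal.mul_ne_top ENNReal.ofReal_ne_top ENNReal.ofReal_ne_top)) ?_
    rw [ENNReal.inv_ne_top]
    exact (tsub_pos_of_lt hlt).ne'
  have hSK := SK_int R' (ENNReal.ofReal θ) P (EF n0) hP hF (ENNReal.ofReal m') hPm
  have hmeas := SK_meas R' (ENNReal.ofReal θ) P (EF n0) hP
  have hSK' : ∀ x, ∫⁻ J, SK R' (ENNReal.ofReal θ) P x J ∂(couplingLaw d) ≠ ∞ :=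
    fun x => ne_top_of_le_ne_top hBfin (hSK x)
  refine ⟨ε, hε, Real.log θ / (2 * n0), by
    have := Real.log_pos hθ
    have : (0 : ℝ) < n0 := by exact_mod_cast hn0
    positivity, θ ^ 2 * (1 + B.toReal), by positivity,
    fun x J => θ ^ 2 * (1 + (SK R' (ENNReal.ofReal θ) P x J).toReal), fun x => ⟨fun J => by
      have := ENNReal.toReal_nonneg (a := SK R' (ENNReal.ofReal θ) P x J)
      positivity, ?_, ?_⟩, ?_⟩
  · exact ((integrable_const 1).add
      (integrable_toReal_of_lintegral_ne_top (hmeas x).aemeasurable (hSK' x))).const_mul _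
  · have h6 := integrable_toReal_of_lintegral_ne_top (hmeas x).aemeasurable (hSK' x)
    rw [integral_const_mul, integral_add (integrable_const 1) h6]
    have h7 : ∫ J, (SK R' (ENNReal.ofReal θ) P x J).toReal ∂(couplingLaw d) ≤ B.toReal := by
      rw [integral_toReal (hmeas x).aemeasurable (ae_lt_top' (hmeas x).aemeasurable (hSK' x))]
      exact ENNReal.toReal_mono hBfin (hSK x)
    simp only [integral_const, probReal_univ, smul_eq_mul, mul_one]
    gcongr
  · have hfin : ∀ᵐ J ∂(couplingLaw d), ∀ x, SK R' (ENNReal.ofReal θ) P x J ≠ ∞ := by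
      rw [ae_all_iff]
      intro x
      filter_upwards [ae_lt_top (hmeas x) (hSK' x)] with J hJ
      exact hJ.ne
    filter_upwards [hfin] with J hJ β hβ
    refine decay β J hn0 hθ P (fun x => ?_) hJ
    apply ENNReal.ofReal_le_ofReal
    have h8 := infl_beta (J := J) (x := x) hn0 β0 β
    have h9 := hεm |β0 - β| (by rw [abs_abs, abs_sub_comm]; exact hβ)
    linarith

theorem mm_decay {β a C : ℝ} (K : Site d → Coupling d → ℝ)
    (hK : ∀ x, (∀ J, 0 ≤ K x J) ∧ Integrable (K x) (couplingLaw d) ∧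
        ∫ J, K x J ∂(couplingLaw d) ≤ C)
    (hD : ∀ᵐ J ∂(couplingLaw d), DecaysAt (gE β J) (fun x => K x J) a) {n : ℕ} (hn : 1 ≤ n) :
    mm d β n ≤ C * Real.exp (-(a * n)) := by
  refine mm_le fun x => ?_
  calc ∫ J, infl β J n x ∂(couplingLaw d) ≤ ∫ J, K x J * Real.exp (-(a * n)) ∂(couplingLaw d) := by
        refine integral_mono_ae (int_infl hn β x) ((hK x).2.1.mul_const _) ?_
        filter_upwards [hD] with J hJ
        refine infl_le fun L ω ω' hx h => ?_
        have := hJ {x} L (ind x) (unit_ind x) (local_ind x) n ω ω' fun x' hx' y hy hne => by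
          rw [Finset.mem_singleton] at hx'
          subst hx'
          by_contra hlt
          exact hne (h y hy (not_le.1 hlt))
        simpa using this
    _ = (∫ J, K x J ∂(couplingLaw d)) * Real.exp (-(a * n)) := integral_mul_const _ _
    _ ≤ C * Real.exp (-(a * n)) := mul_le_mul_of_nonneg_right (hK x).2.2 (Real.exp_pos _).le

/-- The phase of exponential mixing. -/
def phase (d : ℕ) : Set ℝ :=
  {β | 0 < β ∧ ∃ C a : ℝ, 0 < a ∧ ∀ n : ℕ, 1 ≤ n → mm d β n ≤ C * Real.exp (-(a * n))}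

theorem mem_phase (hd : 1 ≤ d) {β : ℝ} (hβ : 0 < β) {n0 : ℕ} (hn0 : 1 ≤ n0)
    (h : ((sph (0 : Site d) (2 * n0)).card : ℝ) * mm d β n0 < 1) : β ∈ phase d := by
  obtain ⟨ε, hε, a, ha, C, -, K, hK, hD⟩ := local_main hd β hn0 h
  refine ⟨hβ, C, a, ha, fun n hn => mm_decay K hK ?_ hn⟩
  filter_upwards [hD] with J hJ
  exact hJ β (by simpa using hε)

open Filter Topology in
theorem exists_scale {β : ℝ} (h : β ∈ phase d) :
    ∃ n0 : ℕ, 1 ≤ n0 ∧ ((sph (0 : Site d) (2 * n0)).card : ℝ) * mm d β n0 < 1 := by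
  obtain ⟨-, C, a, ha, hC⟩ := h
  have hlim : Tendsto (fun n : ℕ => (5 / a) ^ d * C * ((a * n) ^ d * Real.exp (-(a * n)))) atTop
      (𝓝 0) := by
    have h1 := (Real.tendsto_pow_mul_exp_neg_atTop_nhds_zero d).comp
      (tendsto_natCast_atTop_atTop.const_mul_atTop ha)
    simpa using h1.const_mul ((5 / a) ^ d * C)
  obtain ⟨n, hn, hn1⟩ := ((hlim.eventually (gt_mem_nhds one_pos)).and (eventually_ge_atTop 1)).exists
  refine ⟨n, hn1, lt_of_le_of_lt ?_ hn⟩
  have h2 := hC n hn1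
  have h3 : ((sph (0 : Site d) (2 * n)).card : ℝ) ≤ (5 * n) ^ d := by
    have h4 : (sph (0 : Site d) (2 * n)).card ≤ (5 * n) ^ d :=
      (card_sph_le _).trans (Nat.pow_le_pow_left (by omega) d)
    exact_mod_cast h4
  have h5 : 0 ≤ mm d β n := mm_nonneg hn1 β
  calc ((sph (0 : Site d) (2 * n)).card : ℝ) * mm d β n ≤ (5 * n) ^ d * (C * Real.exp (-(a * n))) :=
        mul_le_mul h3 h2 h5 (by positivity)
    _ = _ := by
      rw [mul_pow, mul_pow, div_pow]
      field_simp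

theorem isOpen_phase (hd : 1 ≤ d) : IsOpen (phase d) := by
  rw [Metric.isOpen_iff]
  intro β0 hβ0
  obtain ⟨n0, hn0, h⟩ := exists_scale hβ0
  obtain ⟨ε, hε, a, ha, C, -, K, hK, hD⟩ := local_main hd β0 hn0 h
  refine ⟨min ε β0, lt_min hε hβ0.1, fun β hβ => ?_⟩
  rw [Metric.mem_ball, Real.dist_eq] at hβ
  refine ⟨?_, C, a, ha, fun n hn => mm_decay K hK ?_ hn⟩
  · have := (abs_lt.1 (hβ.trans_le (min_le_right _ _))).1
    linarith
  · filter_upwards [hD] with J hJ
    exact hJ β (hβ.trans_le (min_le_left _ _))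

end Pool.Agent.Helper79K9.FS
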