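import Pool.Agent.Helper79K9.FS.A3
import Pool.Agent.Helper79K9.EA.Stab
import Pool.Agent.H47R2.EA.GIBBSE
import Pool.Agent.H47R2.EA.GIBBSU

/-!
# The Gibbs states in the phase of exponential mixing
-/

set_option autoImplicit false

open MeasureTheory Filter
open scoped ENNReal Topology

namespace Pool.Agent.Helper79K9.FS

open Pool.H47EA
open Pool.Agent.Helper79K9.EA (Sp cpl gE_eq_EA isGibbs_iff)

variable {d : ℕ}

/-- Exponential decay, with rate `a`, of the covariances of an expectation. -/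
def MixesAt (E : ((Site d → Bool) → ℝ) → ℝ) (K : Site d → ℝ) (a : ℝ) : Prop :=
  ∀ (A B : Finset (Site d)) (f f' : (Site d → Bool) → ℝ), Unit01 f → LocalOn A f →
    Unit01 f' → LocalOn B f' → ∀ n : ℕ, (∀ x ∈ A, ∀ y ∈ B, n ≤ dist1 x y) →
      |E (fun σ => f σ * f' σ) - E f * E f'| ≤ (∑ x ∈ A, K x) * Real.exp (-(a * n))

theorem gE_fun (β : ℝ) (J : Coupling d) :
    EA.gE (cpl β (fun _ => 1) (fun _ => 1) J) (fun _ => 0) = gE β J := by
  funext Λ ω f
  exact gE_eq_EA β J Λ ω f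

theorem mixes_gibbs {β : ℝ} {J : Coupling d} {K : Site d → ℝ} {a : ℝ}
    (hD : DecaysAt (gE β J) K a) (π : Measure (Site d → Bool)) (hπ : IsGibbs β J π) :
    MixesAt (fun f => ∫ σ, f σ ∂π) K a := by
  classical
  rw [← gE_fun] at hD
  rw [← isGibbs_iff] at hπ
  set W := cpl β (fun _ => 1) (fun _ => 1) J with hW
  intro A B f f' hf hfA hf' hfB n hn
  rcases Nat.eq_zero_or_pos n with h0n | hpos
  · exact EA.mixing W _ hπ (Λ := ∅) hf hf' hfA hfB (by simp)
      (δ := (∑ x ∈ A, K x) * Real.exp (-(a * n)))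
      (fun ω ω' => hD A ∅ f hf hfA n ω ω' (fun a _ y _ _ => by omega))
  · set Λ : Finset (Site d) := A.biUnion fun a => ball a (n - 1) with hΛ
    refine EA.mixing W _ hπ (Λ := Λ) hf hf' hfA hfB ?_ ?_
    · intro y hy hyΛ
      obtain ⟨a, ha, hay⟩ := Finset.mem_biUnion.1 hyΛ
      have h2 := (chain_mem_ball a y _).1 hay
      have h3 := hn a ha y hy
      omega
    · intro ω ω'
      refine hD A Λ f hf hfA n ω ω' fun a ha y hy _ => ?_
      by_contra hlt
      apply hy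
      rw [hΛ, Finset.mem_biUnion]
      exact ⟨a, ha, (chain_mem_ball a y _).2 (by omega)⟩

theorem forget_of {β : ℝ} {J : Coupling d} {K : Site d → ℝ} {a : ℝ} (ha : 0 < a)
    (hD : DecaysAt (gE β J) K a) : Forget β J := by
  intro A δ hδ
  have hlim : Tendsto (fun n : ℕ => (∑ x ∈ A, K x) * Real.exp (-(a * n))) atTop (𝓝 0) := by
    have h1 : Tendsto (fun n : ℕ => Real.exp (-(a * n))) atTop (𝓝 0) := by
      apply Real.tendsto_exp_neg_atTop_nhds_zero.comp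
      exact tendsto_natCast_atTop_atTop.const_mul_atTop ha
    simpa using h1.const_mul (∑ x ∈ A, K x)
  obtain ⟨n, hn⟩ := ((hlim.eventually (gt_mem_nhds hδ))).exists
  refine ⟨A.biUnion fun a => ball a n, fun Λ hΛ f hf hfA ω ω' => ?_⟩
  refine (hD A Λ f hf hfA n ω ω' fun a ha y hy _ => ?_).trans hn.le
  by_contra hcon
  apply hy
  apply hΛ
  rw [Finset.mem_biUnion]
  exact ⟨a, ha, (chain_mem_ball a y _).2 (by omega)⟩

theorem unique_of {β : ℝ} {J : Coupling d} {K : Site d → ℝ} {a : ℝ} (ha : 0 < a)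
    (hD : DecaysAt (gE β J) K a) : ∃! π : Measure (Site d → Bool), IsGibbs β J π := by
  have hF := forget_of ha hD
  obtain ⟨π, hπ⟩ := t_GIBBSE t_BASIC d β J hF
  exact ⟨π, hπ, fun π' hπ' => t_GIBBSU d β J hF π' π hπ' hπ⟩

/-- almost surely, simultaneously for all temperatures in the phase -/
theorem ae_phase (hd : 1 ≤ d) : ∀ᵐ J ∂(couplingLaw d), ∀ β ∈ phase d,
    ∃ (K : Site d → ℝ) (a : ℝ), 0 < a ∧ DecaysAt (gE β J) K a := by
  set Q : ℚ × ℚ → Prop := fun q => ∀ᵐ J ∂(couplingLaw d), ∀ β : ℝ, (q.1 : ℝ) < β → β < q.2 →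
    ∃ (K : Site d → ℝ) (a : ℝ), 0 < a ∧ DecaysAt (gE β J) K a with hQ
  have h1 : ∀ᵐ J ∂(couplingLaw d), ∀ q : ℚ × ℚ, Q q → ∀ β : ℝ, (q.1 : ℝ) < β → β < q.2 →
      ∃ (K : Site d → ℝ) (a : ℝ), 0 < a ∧ DecaysAt (gE β J) K a := by
    rw [ae_all_iff]
    intro q
    by_cases hq : Q q
    · filter_upwards [hq] with J hJ _
      exact hJ
    · exact ae_of_all _ fun J h => absurd h hq
  filter_upwards [h1] with J hJ β hβ
  obtain ⟨n0, hn0, h⟩ := exists_scale hβ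
  obtain ⟨ε, hε, a, ha, C, -, K, hK, hD⟩ := local_main hd β hn0 h
  obtain ⟨q1, hq1, hq1'⟩ := exists_rat_btwn (show β - ε < β by linarith)
  obtain ⟨q2, hq2, hq2'⟩ := exists_rat_btwn (show β < β + ε by linarith)
  refine hJ (q1, q2) ?_ β hq1' hq2
  simp only [hQ]
  filter_upwards [hD] with J hJ b hb1 hb2
  refine ⟨fun x => K x J, a, ha, hJ b ?_⟩
  rw [abs_lt]
  constructor <;> linarith

/-- the phase contains `(0, c/√d]` -/
theorem small : ∃ c : ℝ, 0 < c ∧ ∀ d : ℕ, 1 ≤ d → ∀ β : ℝ, 0 < β → β ≤ c / √(d : ℝ) →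
    β ∈ phase d := by
  obtain ⟨c, hc, h⟩ := EA.main
  refine ⟨c, hc, fun d hd β hβ0 hβ => ?_⟩
  obtain ⟨K, hK, hJ⟩ := h d hd (fun _ => 1) (fun _ => ⟨zero_le_one, le_rfl⟩)
  have hd0 : (0 : ℝ) < d := by exact_mod_cast hd
  refine ⟨hβ0, 20000, 1 / (8 * d), by positivity, fun n hn => mm_decay K hK ?_ hn⟩
  filter_upwards [hJ] with J hJ
  have h1 := hJ β hβ0 hβ (fun _ => 1) (fun _ => by simp) (fun _ => 0)
  rw [gE_fun] at h1
  intro A Λ f hf hfA n ω ω' hA
  have h2 := h1 A Λ f hf hfA n ω ω' hA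
  have e : -(1 / (8 * (d : ℝ)) * n) = -((n : ℝ) / (8 * d)) := by ring
  rw [e]
  exact h2

theorem not_phase_iff (hd : 1 ≤ d) {β : ℝ} (hβ : 0 < β) :
    β ∉ phase d ↔ ∀ n : ℕ, 1 ≤ n → 1 / ((sph (0 : Site d) (2 * n)).card : ℝ) ≤ mm d β n := by
  constructor
  · intro h n hn
    by_contra hlt
    push Not at hlt
    apply h
    refine mem_phase hd hβ hn ?_
    have hN : (0 : ℝ) < (sph (0 : Site d) (2 * n)).card := by
      exact_mod_cast card_sph_pos hd (2 * n)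
    rw [lt_div_iff₀ hN] at hlt
    linarith
  · intro h hβ'
    obtain ⟨n0, hn0, h1⟩ := exists_scale hβ'
    have hN : (0 : ℝ) < (sph (0 : Site d) (2 * n0)).card := by
      exact_mod_cast card_sph_pos hd (2 * n0)
    have h2 := h n0 hn0
    rw [div_le_iff₀ hN] at h2
    linarith

end Pool.Agent.Helper79K9.FS
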