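import Pool.Agent.Helper79K9.FS.A4
import Pool.Agent.H47R2.EA.REDUCE

/-!
# Translations and dimensions
-/

set_option autoImplicit false

open MeasureTheory Filter
open scoped ENNReal Topology

namespace Pool.Agent.Helper79K9.FS

open Pool.H47EA

/-- reindexing of an independent family along an injection -/
theorem law_inj {E E' : Type} (ν : Measure Bool) [IsProbabilityMeasure ν] (ι : E → E')
    (hι : Function.Injective ι) :
    (Measure.infinitePi (fun _ : E' => ν)).map (fun J' e => J' (ι e)) =
      Measure.infinitePi (fun _ : E => ν) := by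
  classical
  refine Measure.eq_infinitePi _ fun s t ht => ?_
  have hm : Measurable (fun (J' : E' → Bool) (e : E) => J' (ι e)) :=
    measurable_pi_lambda _ fun e => measurable_pi_apply _
  rw [Measure.map_apply hm (.pi (Finset.countable_toSet s) fun i _ => ht i)]
  set t' : E' → Set Bool := Function.extend ι t (fun _ => Set.univ) with ht'
  have h1 : (fun (J' : E' → Bool) (e : E) => J' (ι e)) ⁻¹' (Set.pi (s : Set E) t) =
      Set.pi ((s.image ι : Finset E') : Set E') t' := by
    ext J'
    simp only [Set.mem_preimage, Set.mem_pi, Finset.coe_image, Set.mem_image, Finset.mem_coe,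
      forall_exists_index, and_imp, forall_apply_eq_imp_iff₂, ht']
    constructor
    · intro h e he
      rw [hι.extend_apply]
      exact h e he
    · intro h e he
      have := h e he
      rwa [hι.extend_apply] at this
  rw [h1, Measure.infinitePi_pi, Finset.prod_image fun x _ y _ h => hι h]
  · refine Finset.prod_congr rfl fun e _ => ?_
    rw [ht', hι.extend_apply]
  · intro i _
    exact (Set.toFinite (t' i)).measurableSet

section emb

variable {d d' : ℕ} (φ : Site d → Site d') (hφ : ∀ x y, dist1 (φ x) (φ y) = dist1 x y)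

theorem dist_eq_zero {x y : Site d} (h : dist1 x y = 0) : x = y := by
  unfold dist1 at h
  rw [Finset.sum_eq_zero_iff] at h
  funext i
  have := h i (Finset.mem_univ i)
  omega

include hφ in
theorem emb_inj : Function.Injective φ := by
  intro x y h
  apply dist_eq_zero
  rw [← hφ x y, h, InfAux.dist_self]

/-- the map of the edges -/
def emE (e : (lat d).edgeSet) : (lat d').edgeSet :=
  ⟨Sym2.map φ e.1, by
    obtain ⟨e, he⟩ := e
    induction e using Sym2.ind with
    | _ x y =>
      show dist1 (φ x) (φ y) = 1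
      rw [hφ]; exact he⟩

theorem emE_inj : Function.Injective (emE φ hφ) := by
  intro e e' h
  have h1 : Sym2.map φ e.1 = Sym2.map φ e'.1 := congrArg Subtype.val h
  exact Subtype.ext (Sym2.map.injective (emb_inj φ hφ) h1)

/-- the restriction of the couplings -/
def pull (J' : Coupling d') : Coupling d := fun e => J' (emE φ hφ e)

theorem law_pull : (couplingLaw d').map (pull φ hφ) = couplingLaw d :=
  law_inj _ _ (emE_inj φ hφ)

theorem meas_pull : Measurable (pull φ hφ) :=
  measurable_pi_lambda _ fun _ => measurable_pi_apply _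

theorem Jc_pull (J' : Coupling d') (x y : Site d) :
    Jc (pull φ hφ J') x y = Jc J' (φ x) (φ y) := by
  unfold Jc
  by_cases h : (lat d).Adj x y
  · have h' : (lat d').Adj (φ x) (φ y) := by
      show dist1 (φ x) (φ y) = 1
      rw [hφ]; exact h
    rw [dif_pos h, dif_pos h']
    rfl
  · have h' : ¬ (lat d').Adj (φ x) (φ y) := by
      intro h'
      apply h
      show dist1 x y = 1
      rw [← hφ]; exact h'
    rw [dif_neg h, dif_neg h']

open Classical in
theorem ham_pull (J' : Coupling d') (L : Finset (Site d)) (σ : Site d' → Bool)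
    (hσ : ∀ x ∈ L, ∑ y ∈ (nbr (φ x)).filter (fun y => y ∉ Set.range φ),
      Jc J' (φ x) y * sg (σ y) = 0) :
    ham J' (L.image φ) σ = ham (pull φ hφ J') L (fun x => σ (φ x)) := by
  have hinj := emb_inj φ hφ
  rw [ham_eq_sum, ham_eq_sum, Finset.sum_image fun x _ y _ h => hinj h]
  refine Finset.sum_congr rfl fun x hx => ?_
  rw [← Finset.sum_filter_add_sum_filter_not (nbr (φ x)) (fun y => y ∉ Set.range φ)]
  have e1 : ∑ y ∈ (nbr (φ x)).filter (fun y => y ∉ Set.range φ),
      (if y ∈ L.image φ then Jc J' (φ x) y * sg (σ (φ x)) * sg (σ y) / 2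
        else Jc J' (φ x) y * sg (σ (φ x)) * sg (σ y)) = 0 := by
    calc _ = ∑ y ∈ (nbr (φ x)).filter (fun y => y ∉ Set.range φ),
          sg (σ (φ x)) * (Jc J' (φ x) y * sg (σ y)) := by
          refine Finset.sum_congr rfl fun y hy => ?_
          have hy' : y ∉ L.image φ := by
            intro h
            obtain ⟨z, -, rfl⟩ := Finset.mem_image.1 h
            exact (Finset.mem_filter.1 hy).2 ⟨z, rfl⟩
          rw [if_neg hy']
          ring
      _ = 0 := by rw [← Finset.mul_sum, hσ x hx, mul_zero]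
  have e2 : (nbr (φ x)).filter (fun y => ¬ y ∉ Set.range φ) = (nbr x).image φ := by
    ext y
    simp only [Finset.mem_filter, not_not, Finset.mem_image, Basic.mem_nbr]
    constructor
    · rintro ⟨h1, z, rfl⟩
      exact ⟨z, by rw [← hφ]; exact h1, rfl⟩
    · rintro ⟨z, h1, rfl⟩
      exact ⟨by rw [hφ]; exact h1, z, rfl⟩
  rw [e1, zero_add, e2, Finset.sum_image fun x _ y _ h => hinj h]
  refine Finset.sum_congr rfl fun y _ => ?_
  have e3 : φ y ∈ L.image φ ↔ y ∈ L := by
    rw [Finset.mem_image]
    constructor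
    · rintro ⟨z, hz, h⟩
      rwa [← hinj h]
    · exact fun h => ⟨y, h, rfl⟩
  simp only [e3, Jc_pull]

open Classical in
theorem gE_pull (β : ℝ) (J' : Coupling d') (L : Finset (Site d)) (x : Site d)
    (ω : Site d' → Bool)
    (hω : ∀ x ∈ L, ∑ y ∈ (nbr (φ x)).filter (fun y => y ∉ Set.range φ),
      Jc J' (φ x) y * sg (ω y) = 0) :
    gE β J' (L.image φ) ω (ind (φ x)) = gE β (pull φ hφ J') L (fun x => ω (φ x)) (ind x) := by
  have hinj := emb_inj φ hφ
  let eL : L ≃ ↥(L.image φ) := Equiv.ofBijective
    (fun z => ⟨φ z.1, Finset.mem_image_of_mem φ z.2⟩) ⟨fun a b h => by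
      have : φ a.1 = φ b.1 := congrArg Subtype.val h
      exact Subtype.ext (hinj this), fun ⟨b, hb⟩ => by
      obtain ⟨a, ha, rfl⟩ := Finset.mem_image.1 hb
      exact ⟨⟨a, ha⟩, rfl⟩⟩
  let E : (↥(L.image φ) → Bool) ≃ (L → Bool) :=
    (Equiv.arrowCongr eL (Equiv.refl Bool)).symm
  have hE : ∀ (η : ↥(L.image φ) → Bool) (z : L), E η z = η (eL z) :=
    fun η z => rfl
  have hglue : ∀ η : ↥(L.image φ) → Bool,
      (fun z => glue (L.image φ) η ω (φ z)) = glue L (E η) (fun z => ω (φ z)) := by
    intro η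
    funext z
    by_cases hz : z ∈ L
    · rw [Basic.glue_mem _ _ hz, Basic.glue_mem _ _ (Finset.mem_image_of_mem φ hz), hE]
      rfl
    · have hz' : φ z ∉ L.image φ := by
        intro h
        obtain ⟨w, hw, h⟩ := Finset.mem_image.1 h
        exact hz (by rwa [← hinj h])
      rw [Basic.glue_not_mem _ _ hz, Basic.glue_not_mem _ _ hz']
  have hham : ∀ η, ham J' (L.image φ) (glue (L.image φ) η ω) =
      ham (pull φ hφ J') L (glue L (E η) (fun z => ω (φ z))) := by
    intro η
    rw [ham_pull φ hφ J' L, hglue]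
    intro y hy
    rw [← hω y hy]
    refine Finset.sum_congr rfl fun z hz => ?_
    rw [Basic.glue_not_mem]
    intro h
    obtain ⟨w, -, rfl⟩ := Finset.mem_image.1 h
    exact (Finset.mem_filter.1 hz).2 ⟨w, rfl⟩
  have hind : ∀ η, ind (φ x) (glue (L.image φ) η ω) =
      ind x (glue L (E η) (fun z => ω (φ z))) := by
    intro η
    unfold ind
    have : glue (L.image φ) η ω (φ x) = glue L (E η) (fun z => ω (φ z)) x :=
      congrFun (hglue η) x
    rw [this]
  unfold gE Zp
  congr 1
  · exact Fintype.sum_equiv E _ _ fun η => by rw [hham, hind]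
  · exact Fintype.sum_equiv E _ _ fun η => by rw [hham]

open Classical in
theorem infl_pull (β : ℝ) (J' : Coupling d') (n : ℕ) (x : Site d) (ζ : Site d' → Bool)
    (hζ : ∀ x, ∑ y ∈ (nbr (φ x)).filter (fun y => y ∉ Set.range φ),
      Jc J' (φ x) y * sg (ζ y) = 0) :
    infl β (pull φ hφ J') n x ≤ infl β J' n (φ x) := by
  have hinj := emb_inj φ hφ
  refine infl_le fun L ω ω' hx h => ?_
  have key : ∀ τ : Site d → Bool, gE β (pull φ hφ J') L τ (ind x) =
      gE β J' (L.image φ) (Function.extend φ τ ζ) (ind (φ x)) := by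
    intro τ
    rw [gE_pull φ hφ β J' L x]
    · congr 1
      funext z
      rw [hinj.extend_apply]
    · intro y hy
      rw [← hζ y]
      refine Finset.sum_congr rfl fun z hz => ?_
      rw [Function.extend_apply' _ _ _ (fun ⟨a, ha⟩ => (Finset.mem_filter.1 hz).2 ⟨a, ha⟩)]
  rw [key, key]
  refine le_infl _ _ _ (Finset.mem_image_of_mem φ hx) fun y hy hd => ?_
  by_cases hr : ∃ z, φ z = y
  · obtain ⟨z, rfl⟩ := hr
    rw [hinj.extend_apply, hinj.extend_apply]
    refine h z (fun hz => hy (Finset.mem_image_of_mem φ hz)) ?_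
    rwa [hφ] at hd
  · rw [Function.extend_apply' _ _ _ hr, Function.extend_apply' _ _ _ hr]

include hφ in
open Classical in
theorem int_pull (β : ℝ) {n : ℕ} (hn : 1 ≤ n) (x : Site d)
    (hζ : ∀ J' : Coupling d', ∃ ζ : Site d' → Bool,
      ∀ x, ∑ y ∈ (nbr (φ x)).filter (fun y => y ∉ Set.range φ), Jc J' (φ x) y * sg (ζ y) = 0) :
    ∫ J, infl β J n x ∂(couplingLaw d) ≤ ∫ J', infl β J' n (φ x) ∂(couplingLaw d') := by
  rw [← law_pull φ hφ, integral_map (meas_pull φ hφ).aemeasurable
    (meas_infl hn β x).aestronglyMeasurable]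
  refine integral_mono ?_ (int_infl hn β (φ x)) fun J' => ?_
  · exact Integrable.of_bound ((meas_infl hn β x).comp (meas_pull φ hφ)).aestronglyMeasurable 1
      (ae_of_all _ fun J => by
        rw [Real.norm_eq_abs, abs_of_nonneg infl_nonneg]; exact infl_le_one)
  · obtain ⟨ζ, h⟩ := hζ J'
    exact infl_pull φ hφ β J' n x ζ h

end emb

variable {d : ℕ}

theorem int_translate (β : ℝ) {n : ℕ} (hn : 1 ≤ n) (x v : Site d) :
    ∫ J, infl β J n x ∂(couplingLaw d) ≤ ∫ J, infl β J n (x + v) ∂(couplingLaw d) := by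
  classical
  refine int_pull (fun z => z + v) (fun x y => dist_add x y v) β hn x fun J' =>
    ⟨fun _ => true, fun z => ?_⟩
  rw [Finset.sum_eq_zero]
  intro y hy
  exact absurd ⟨y - v, by simp⟩ (Finset.mem_filter.1 hy).2

/-- translation invariance -/
theorem mm_eq (β : ℝ) {n : ℕ} (hn : 1 ≤ n) :
    mm d β n = ∫ J, infl β J n (0 : Site d) ∂(couplingLaw d) := by
  refine le_antisymm (mm_le fun x => ?_) (le_mm hn β 0)
  have := int_translate β hn x (-x)
  simpa using this

/-- the hyperplane -/
def hyp (x : Site d) : Site (d + 1) := Fin.cons 0 x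

theorem dist_hyp (x y : Site d) : dist1 (hyp x) (hyp y) = dist1 x y := by
  unfold dist1 hyp
  rw [Fin.sum_univ_succ]
  simp

theorem exists_zeta (J' : Coupling (d + 1)) : ∃ ζ : Site (d + 1) → Bool, ∀ x : Site d,
    ∑ y ∈ @Finset.filter _ (fun y => y ∉ Set.range (hyp (d := d))) (fun _ => Classical.dec _)
      (nbr (hyp x)), Jc J' (hyp x) y * sg (ζ y) = 0 := by
  classical
  refine ⟨fun y => decide (0 < (y 0 : ℝ) * Jc J' (Fin.cons 0 (Fin.tail y)) y), fun x => ?_⟩
  have hset : @Finset.filter _ (fun y => y ∉ Set.range (hyp (d := d))) (fun _ => Classical.dec _)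
      (nbr (hyp x)) = {(Fin.cons 1 x : Site (d + 1)), (Fin.cons (-1) x : Site (d + 1))} := by
    ext y
    simp only [Finset.mem_filter, Basic.mem_nbr, Finset.mem_insert, Finset.mem_singleton]
    constructor
    · rintro ⟨h1, h2⟩
      unfold dist1 hyp at h1
      rw [Fin.sum_univ_succ] at h1
      simp only [Fin.cons_zero, Fin.cons_succ] at h1
      have h0 : y 0 ≠ 0 := by
        intro h0
        apply h2
        refine ⟨Fin.tail y, ?_⟩
        unfold hyp
        rw [← h0]
        exact Fin.cons_self_tail y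
      have h3 : (0 - y 0).natAbs = 1 := by omega
      have h4 : ∑ i : Fin d, (x i - y i.succ).natAbs = 0 := by omega
      rw [Finset.sum_eq_zero_iff] at h4
      have h5 : Fin.tail y = x := by
        funext i
        have := h4 i (Finset.mem_univ i)
        show y i.succ = x i
        omega
      have h6 : y 0 = 1 ∨ y 0 = -1 := by omega
      rcases h6 with h6 | h6
      · left
        rw [← h6, ← h5]
        exact (Fin.cons_self_tail y).symm
      · right
        rw [← h6, ← h5]
        exact (Fin.cons_self_tail y).symm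
    · rintro (rfl | rfl)
      · refine ⟨?_, ?_⟩
        · unfold dist1 hyp
          rw [Fin.sum_univ_succ]
          simp
        · rintro ⟨z, hz⟩
          have := congrFun hz 0
          simp [hyp] at this
      · refine ⟨?_, ?_⟩
        · unfold dist1 hyp
          rw [Fin.sum_univ_succ]
          simp
        · rintro ⟨z, hz⟩
          have := congrFun hz 0
          simp [hyp] at this
  have hJ : ∀ a : ℤ, (a = 1 ∨ a = -1) → Jc J' (hyp x) (Fin.cons a x) = 1 ∨
      Jc J' (hyp x) (Fin.cons a x) = -1 := by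
    intro a ha
    have hadj : (lat (d + 1)).Adj (hyp x) (Fin.cons a x) := by
      show dist1 (hyp x) (Fin.cons a x) = 1
      unfold dist1 hyp
      rw [Fin.sum_univ_succ]
      rcases ha with rfl | rfl <;> simp
    unfold Jc sg
    rw [dif_pos hadj]
    split_ifs
    · left; rfl
    · right; rfl
  have hne : (Fin.cons 1 x : Site (d + 1)) ≠ Fin.cons (-1) x := by
    intro h
    have := congrFun h 0
    simp at this
  rw [hset, Finset.sum_pair hne]
  beta_reduce
  have hh : ∀ a : ℤ, (Fin.cons 0 (Fin.tail (Fin.cons a x : Site (d + 1))) : Site (d + 1)) = hyp x := by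
    intro a
    rw [Fin.tail_cons]; rfl
  rw [hh, hh]
  simp only [Fin.cons_zero]
  rcases hJ 1 (Or.inl rfl) with h1 | h1 <;> rcases hJ (-1) (Or.inr rfl) with h2 | h2 <;>
    rw [h1, h2] <;> norm_num [sg]

/-- monotonicity in the dimension -/
theorem mm_dim (β : ℝ) {n : ℕ} (hn : 1 ≤ n) : mm d β n ≤ mm (d + 1) β n := by
  refine mm_le fun x => ?_
  refine (int_pull hyp dist_hyp β hn x fun J' => ?_).trans (le_mm hn β (hyp x))
  obtain ⟨ζ, h⟩ := exists_zeta J'
  exact ⟨ζ, fun x => by convert! h x⟩

theorem phase_dim : phase (d + 1) ⊆ phase d := by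
  rintro β ⟨hβ, C, a, ha, h⟩
  exact ⟨hβ, C, a, ha, fun n hn => (mm_dim β hn).trans (h n hn)⟩

end Pool.Agent.Helper79K9.FS
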