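import Pool.Agent.Helper79K9.FS.A5

/-!
# The size of spheres
-/

set_option autoImplicit false

namespace Pool.Agent.Helper79K9.FS

open Pool.H47EA

theorem card_sph_poly {d : ℕ} (hd : 1 ≤ d) (r : ℕ) :
    (sph (0 : Site d) r).card ≤ 2 * (2 * r + 1) ^ (d - 1) := by
  obtain ⟨k, rfl⟩ : ∃ k, d = k + 1 := ⟨d - 1, by omega⟩
  rw [Nat.add_sub_cancel]
  have h1 : (sph (0 : Site (k + 1)) r).card ≤
      ((Finset.univ : Finset Bool) ×ˢ ball (0 : Site k) r).card := by
    refine Finset.card_le_card_of_injOn (fun y => (decide (0 ≤ y 0), Fin.tail y)) ?_ ?_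
    · intro y hy
      have hy' := (mem_sph _ _ _).1 hy
      unfold dist1 at hy'
      rw [Fin.sum_univ_succ] at hy'
      rw [Finset.mem_coe, Finset.mem_product]
      refine ⟨Finset.mem_univ _, ?_⟩
      rw [chain_mem_ball]
      show (∑ i : Fin k, ((0 : ℤ) - y i.succ).natAbs) ≤ r
      have : ∑ i : Fin k, ((0 : Site (k + 1)) i.succ - y i.succ).natAbs =
        ∑ i : Fin k, ((0 : ℤ) - y i.succ).natAbs := rfl
      omega
    · intro y hy z hz h
      have hy' := (mem_sph _ _ _).1 hy
      have hz' := (mem_sph _ _ _).1 hz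
      unfold dist1 at hy' hz'
      rw [Fin.sum_univ_succ] at hy' hz'
      simp only [Prod.mk.injEq, decide_eq_decide] at h
      obtain ⟨h2, h3⟩ := h
      have h4 : ∑ i : Fin k, ((0 : Site (k + 1)) i.succ - y i.succ).natAbs =
          ∑ i : Fin k, ((0 : Site (k + 1)) i.succ - z i.succ).natAbs := by
        refine Finset.sum_congr rfl fun i _ => ?_
        have := congrFun h3 i
        show ((0 : Site (k + 1)) i.succ - Fin.tail y i).natAbs = _
        rw [this]
        rfl
      have h5 : (0 : Site (k + 1)) 0 = 0 := rfl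
      rw [h5] at hy' hz'
      have h6 : y 0 = z 0 := by
        have : ((0 : ℤ) - y 0).natAbs = ((0 : ℤ) - z 0).natAbs := by omega
        omega
      rw [← Fin.cons_self_tail y, ← Fin.cons_self_tail z, h3, h6]
  refine h1.trans ?_
  rw [Finset.card_product]
  simp only [Finset.card_univ, Fintype.card_bool]
  exact Nat.mul_le_mul_left _ (card_ball_le 0 r)

end Pool.Agent.Helper79K9.FS
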